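import Mathlib

/-!
# Newton interpolation on a smooth curve, without power series

`LL v t M g`: the function `g` on the set `S` of integral points has `M` iterated divided
differences with respect to the parameter `t`.
-/

set_option autoImplicit false

namespace Pool.Agent.Helper21.TN

variable {L : Type} [Field L] {S : Type}

/-- The function `g` is integral and has `M` iterated divided differences with respect to `t`. -/
def LL (v : Valuation L (WithZero (Multiplicative ℤ))) (t : S → L) : ℕ → (S → L) → Prop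
  | 0, g => ∀ x, v (g x) ≤ 1
  | M + 1, g => (∀ x, v (g x) ≤ 1) ∧
      ∀ y, ∃ g', LL v t M g' ∧ ∀ x, g x - g y = (t x - t y) * g' x

variable {v : Valuation L (WithZero (Multiplicative ℤ))} {t : S → L}

theorem LL.int {M : ℕ} {g : S → L} (h : LL v t M g) (x : S) : v (g x) ≤ 1 := by
  cases M with
  | zero => exact h x
  | succ M => exact h.1 x

theorem LL.mono {M : ℕ} {g : S → L} (h : LL v t (M + 1) g) : LL v t M g := by
  induction M generalizing g with
  | zero => exact h.1
  | succ M ih =>
    refine ⟨h.1, fun y => ?_⟩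
    obtain ⟨g', h1, h2⟩ := h.2 y
    exact ⟨g', ih h1, h2⟩

theorem LL.const (M : ℕ) {a : L} (ha : v a ≤ 1) : LL v t M (fun _ => a) := by
  induction M generalizing a with
  | zero => exact fun _ => ha
  | succ M ih =>
    refine ⟨fun _ => ha, fun y => ⟨fun _ => 0, ih (by simp), fun x => by ring⟩⟩

theorem LL.add {M : ℕ} {g₁ g₂ : S → L} (h₁ : LL v t M g₁) (h₂ : LL v t M g₂) :
    LL v t M (fun x => g₁ x + g₂ x) := by
  induction M generalizing g₁ g₂ with
  | zero => exact fun x => (v.map_add _ _).trans (max_le (h₁ x) (h₂ x))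
  | succ M ih =>
    refine ⟨fun x => (v.map_add _ _).trans (max_le (h₁.1 x) (h₂.1 x)), fun y => ?_⟩
    obtain ⟨a, ha, ha'⟩ := h₁.2 y
    obtain ⟨b, hb, hb'⟩ := h₂.2 y
    exact ⟨fun x => a x + b x, ih ha hb, fun x => by linear_combination ha' x + hb' x⟩

theorem LL.mul {M : ℕ} {g₁ g₂ : S → L} (h₁ : LL v t M g₁) (h₂ : LL v t M g₂) :
    LL v t M (fun x => g₁ x * g₂ x) := by
  induction M generalizing g₁ g₂ with
  | zero => exact fun x => by rw [map_mul]; exact mul_le_one' (h₁ x) (h₂ x)
  | succ M ih =>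
    refine ⟨fun x => by rw [map_mul]; exact mul_le_one' (h₁.1 x) (h₂.1 x), fun y => ?_⟩
    obtain ⟨a, ha, ha'⟩ := h₁.2 y
    obtain ⟨b, hb, hb'⟩ := h₂.2 y
    refine ⟨fun x => a x * g₂ x + g₁ y * b x,
      (ih ha h₂.mono).add (ih (LL.const M (h₁.1 y)) hb), fun x => ?_⟩
    linear_combination g₂ x * ha' x + g₁ y * hb' x

theorem LL.neg {M : ℕ} {g : S → L} (h : LL v t M g) : LL v t M (fun x => -g x) := by
  have h1 := (LL.const (v := v) (t := t) M (a := -1) (by simp)).mul h
  have h2 : (fun x => -1 * g x) = fun x => -g x := by funext x; ring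
  rwa [h2] at h1

theorem LL.sub {M : ℕ} {g₁ g₂ : S → L} (h₁ : LL v t M g₁) (h₂ : LL v t M g₂) :
    LL v t M (fun x => g₁ x - g₂ x) := by
  have h1 := h₁.add h₂.neg
  have h2 : (fun x => g₁ x + -g₂ x) = fun x => g₁ x - g₂ x := by funext x; ring
  rwa [h2] at h1

theorem LL.inv {M : ℕ} {g : S → L} (h : LL v t M g) (hu : ∀ x, v (g x) = 1) :
    LL v t M (fun x => (g x)⁻¹) := by
  have hne : ∀ x, g x ≠ 0 := fun x h0 => by
    have := hu x
    rw [h0, map_zero] at this
    exact zero_ne_one this
  induction M generalizing g with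
  | zero => exact fun x => by rw [map_inv₀, hu x, inv_one]
  | succ M ih =>
    refine ⟨fun x => by rw [map_inv₀, hu x, inv_one], fun y => ?_⟩
    obtain ⟨a, ha, ha'⟩ := h.2 y
    have h1 := ih h.mono hu hne
    refine ⟨fun x => -(a x * (g x)⁻¹ * (g y)⁻¹),
      ((ha.mul h1).mul (LL.const M (by rw [map_inv₀, hu y, inv_one]))).neg, fun x => ?_⟩
    have hx := hne x
    have hy := hne y
    have h2 := ha' x
    field_simp
    linear_combination -h2

theorem LL.div {M : ℕ} {g₁ g₂ : S → L} (h₁ : LL v t M g₁) (h₂ : LL v t M g₂)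
    (hu : ∀ x, v (g₂ x) = 1) : LL v t M (fun x => g₁ x / g₂ x) := by
  have h1 := h₁.mul (h₂.inv hu)
  simpa only [div_eq_mul_inv] using h1

theorem LL.sum {ι : Type} (s : Finset ι) {M : ℕ} {g : ι → S → L} (h : ∀ i ∈ s, LL v t M (g i)) :
    LL v t M (fun x => ∑ i ∈ s, g i x) := by
  classical
  induction s using Finset.induction_on with
  | empty => simpa using LL.const (v := v) (t := t) M (a := 0) (by simp)
  | insert a s ha ih =>
    have h1 := (h a (Finset.mem_insert_self a s)).add
      (ih fun i hi => h i (Finset.mem_insert_of_mem hi))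
    have h2 : (fun x => g a x + ∑ i ∈ s, g i x) = fun x => ∑ i ∈ insert a s, g i x := by
      funext x
      rw [Finset.sum_insert ha]
    rwa [h2] at h1

theorem LL.prod {ι : Type} (s : Finset ι) {M : ℕ} {g : ι → S → L} (h : ∀ i ∈ s, LL v t M (g i)) :
    LL v t M (fun x => ∏ i ∈ s, g i x) := by
  classical
  induction s using Finset.induction_on with
  | empty => simpa using LL.const (v := v) (t := t) M (a := 1) (by simp)
  | insert a s ha ih =>
    have h1 := (h a (Finset.mem_insert_self a s)).mul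
      (ih fun i hi => h i (Finset.mem_insert_of_mem hi))
    have h2 : (fun x => g a x * ∏ i ∈ s, g i x) = fun x => ∏ i ∈ insert a s, g i x := by
      funext x
      rw [Finset.prod_insert ha]
    rwa [h2] at h1

theorem LL.det {ι : Type} [Fintype ι] [DecidableEq ι] {M : ℕ} {A : S → Matrix ι ι L}
    (h : ∀ i j, LL v t M (fun x => A x i j)) : LL v t M (fun x => (A x).det) := by
  have h1 : (fun x => (A x).det) = fun x =>
      ∑ σ : Equiv.Perm ι, ((Equiv.Perm.sign σ : ℤ) : L) * ∏ i, A x (σ i) i := by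
    funext x
    exact Matrix.det_apply' _
  rw [h1]
  refine LL.sum _ fun σ _ => (LL.const M ?_).mul (LL.prod _ fun i _ => h _ _)
  rcases Int.units_eq_one_or (Equiv.Perm.sign σ) with h2 | h2 <;> rw [h2] <;> simp

/-- Integral polynomials in functions of the class are in the class. -/
theorem LL.eval {n : ℕ} {M : ℕ} {g : Fin n → S → L} (h : ∀ i, LL v t M (g i))
    {P : MvPolynomial (Fin n) L} (hP : ∀ m, v (P.coeff m) ≤ 1) :
    LL v t M (fun x => MvPolynomial.eval (fun i => g i x) P) := by
  have h1 : (fun x => MvPolynomial.eval (fun i => g i x) P) =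
      fun x => ∑ m ∈ P.support, P.coeff m * ∏ i, g i x ^ m i := by
    funext x
    rw [MvPolynomial.eval_eq']
  rw [h1]
  refine LL.sum _ fun m _ => (LL.const M (hP m)).mul (LL.prod _ fun i _ => ?_)
  have h2 : (fun x => g i x ^ m i) = fun x => ∏ _j ∈ Finset.range (m i), g i x := by
    funext x
    rw [Finset.prod_const, Finset.card_range]
  rw [h2]
  exact LL.prod _ fun _ _ => h i

/-- A function of the class which is small at `M` points, far from each other, is small. -/
theorem LL.bound {M : ℕ} {g : S → L} (h : LL v t M g) {y : Fin M → S} {u : S}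
    {η ρ ε : WithZero (Multiplicative ℤ)} (hη : η ≠ 0) (hη1 : η ≤ 1)
    (hy : ∀ i j, i ≠ j → η ≤ v (t (y i) - t (y j)))
    (hu : ∀ i, v (t u - t (y i)) ≤ ρ) (hρ : ρ ≤ 1) (hε : ∀ i, v (g (y i)) ≤ ε) :
    v (g u) ≤ max (ε * (η⁻¹) ^ M) (ρ ^ M) := by
  induction M generalizing g ε with
  | zero =>
    rw [pow_zero, pow_zero, mul_one]
    exact (h.int u).trans (le_max_right _ _)
  | succ M ih =>
    obtain ⟨g', h1, h2⟩ := h.2 (y (Fin.last M))
    have hη' : (1 : WithZero (Multiplicative ℤ)) ≤ η⁻¹ := by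
      rwa [one_le_inv₀ (zero_lt_iff.2 hη)]
    have h3 : ∀ i : Fin M, v (g' (y i.castSucc)) ≤ ε * η⁻¹ := by
      intro i
      have h4 := hy i.castSucc (Fin.last M) (Fin.castSucc_lt_last i).ne
      have h5 := h2 (y i.castSucc)
      have h6 : v (g (y i.castSucc) - g (y (Fin.last M))) ≤ ε :=
        (v.map_sub _ _).trans (max_le (hε _) (hε _))
      rw [h5, map_mul] at h6
      have h7 : η * v (g' (y i.castSucc)) ≤ ε := (mul_le_mul_left h4 _).trans h6
      rw [mul_comm] at h7
      exact (le_mul_inv_iff₀ (zero_lt_iff.2 hη)).2 h7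
    have h4 := ih h1 (y := fun i => y i.castSucc)
      (fun i j hij => hy _ _ fun h => hij (Fin.castSucc_injective M h)) (fun i => hu _) h3
    have h5 : g u = g (y (Fin.last M)) + (t u - t (y (Fin.last M))) * g' u := by
      rw [← h2 u]; ring
    rw [h5]
    refine (v.map_add _ _).trans (max_le ?_ ?_)
    · refine (hε _).trans ((le_mul_of_one_le_right' ?_).trans (le_max_left _ _))
      exact one_le_pow_of_one_le' hη' _
    · rw [map_mul]
      refine (mul_le_mul' (hu _) h4).trans ?_
      rcases le_total (ε * η⁻¹ * η⁻¹ ^ M) (ρ ^ M) with h6 | h6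
      · rw [max_eq_right h6, ← pow_succ']
        exact le_max_right _ _
      · rw [max_eq_left h6]
        refine (mul_le_of_le_one_left' hρ).trans ?_
        rw [mul_assoc, ← pow_succ']
        exact le_max_left _ _

end Pool.Agent.Helper21.TN
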