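import Pool.Agent.Helper21.TN.Smooth

/-!
# The normalised iterates on a periodic residue disc
-/

set_option autoImplicit false

namespace Pool.Agent.Helper21.TN

open MvPolynomial
open Pool.Agent.Helper16 (Place)
open Pool.Agent.Helper30.TKN
open Pool.Agent.Helper36 (step iter iter_zero iter_succ iter_add)
open Pool.Agent.Helper38.TQ (IsEndo)

variable {ν : ℕ} {k L : Type} [Field k] [Field L] [Algebra k L]

/-- The normalised iterate. -/
noncomputable def nit (F : Fin (ν + 1) → MvPolynomial (Fin (ν + 1)) L) (p : Fin (ν + 1))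
    (u : Fin (ν + 1) → L) (n : ℕ) : Fin (ν + 1) → L :=
  fun a => iter F u n a / iter F u n p

/-- The point `u` of the chart `x_p = 1` is in the residue disc of `z`. -/
def Near (B : Place k L) (z : Fin (ν + 1) → k) (p : Fin (ν + 1)) (u : Fin (ν + 1) → L) : Prop :=
  u p = 1 ∧ ∀ a, B.val (u a - algebraMap k L (z a)) < 1

variable {B : Place k L} {z : Fin (ν + 1) → k} {p : Fin (ν + 1)}

theorem Near.int {u : Fin (ν + 1) → L} (h : Near B z p u) (a : Fin (ν + 1)) :
    B.val (u a) ≤ 1 := by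
  have h1 : u a = (u a - algebraMap k L (z a)) + algebraMap k L (z a) := by ring
  rw [h1]
  exact (B.val.map_add _ _).trans (max_le (h.2 a).le (B.val_algebraMap_le _))

/-- Integral polynomials are Lipschitz. -/
theorem lip_poly (v : Valuation L (WithZero (Multiplicative ℤ))) {n : ℕ} {u u' : Fin n → L}
    (hu : ∀ a, v (u a) ≤ 1) (hu' : ∀ a, v (u' a) ≤ 1) {ε : WithZero (Multiplicative ℤ)}
    (hd : ∀ a, v (u a - u' a) ≤ ε) (P : MvPolynomial (Fin n) L) (hP : ∀ m, v (P.coeff m) ≤ 1) :
    v (eval u P) ≤ 1 ∧ v (eval u' P) ≤ 1 ∧ v (eval u P - eval u' P) ≤ ε := by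
  refine int_induction v (M := fun P => v (eval u P) ≤ 1 ∧ v (eval u' P) ≤ 1 ∧
    v (eval u P - eval u' P) ≤ ε) ?_ ?_ ?_ P hP
  · intro a ha
    rw [eval_C, eval_C, sub_self, map_zero]
    exact ⟨ha, ha, zero_le⟩
  · rintro p q ⟨h1, h2, h3⟩ ⟨g1, g2, g3⟩
    simp only [map_add]
    refine ⟨(v.map_add _ _).trans (max_le h1 g1), (v.map_add _ _).trans (max_le h2 g2), ?_⟩
    rw [add_sub_add_comm]
    exact (v.map_add _ _).trans (max_le h3 g3)
  · rintro p i - ⟨h1, h2, h3⟩
    simp only [map_mul, eval_X]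
    refine ⟨mul_le_one' h1 (hu i), mul_le_one' h2 (hu' i), ?_⟩
    have e : eval u p * u i - eval u' p * u' i = eval u p * (u i - u' i) +
        (eval u p - eval u' p) * u' i := by ring
    rw [e]
    refine (v.map_add _ _).trans (max_le ?_ ?_)
    · rw [map_mul]
      exact (mul_le_mul' h1 (hd i)).trans_eq (one_mul _)
    · rw [map_mul]
      exact (mul_le_mul' h3 (hu' i)).trans_eq (mul_one _)

variable {F : Fin (ν + 1) → MvPolynomial (Fin (ν + 1)) L}

theorem step_eval (u : Fin (ν + 1) → L) (i : Fin (ν + 1)) : step F u i = eval u (F i) :=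
  congrArg (fun φ => φ (F i)) (coe_aeval_eq_eval u)

theorem lip_iter {v : Valuation L (WithZero (Multiplicative ℤ))}
    (hF : ∀ i m, v ((F i).coeff m) ≤ 1) {u u' : Fin (ν + 1) → L}
    (hu : ∀ a, v (u a) ≤ 1) (hu' : ∀ a, v (u' a) ≤ 1) {ε : WithZero (Multiplicative ℤ)}
    (hd : ∀ a, v (u a - u' a) ≤ ε) (n : ℕ) :
    (∀ a, v (iter F u n a) ≤ 1) ∧ (∀ a, v (iter F u' n a) ≤ 1) ∧
      ∀ a, v (iter F u n a - iter F u' n a) ≤ ε := by
  induction n with
  | zero => exact ⟨hu, hu', hd⟩
  | succ n ih =>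
    obtain ⟨h1, h2, h3⟩ := ih
    have h4 := fun i => lip_poly v h1 h2 h3 (F i) (hF i)
    rw [iter_succ, iter_succ]
    refine ⟨fun a => ?_, fun a => ?_, fun a => ?_⟩
    · rw [step_eval]; exact (h4 a).1
    · rw [step_eval]; exact (h4 a).2.1
    · rw [step_eval, step_eval]; exact (h4 a).2.2

theorem red_iter {f : Fin (ν + 1) → MvPolynomial (Fin (ν + 1)) k}
    (hf : ∀ i, RedP B (F i) (f i)) {u : Fin (ν + 1) → L}
    (hu : ∀ a, B.val (u a - algebraMap k L (z a)) < 1) (n : ℕ) (a : Fin (ν + 1)) :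
    B.val (iter F u n a - algebraMap k L (iter f z n a)) < 1 := by
  induction n generalizing a with
  | zero => exact hu a
  | succ n ih =>
    rw [iter_succ, iter_succ, step_eval, step_eval]
    exact (hf a).eval ih

theorem step_smulK {d : ℕ} (hF : ∀ i, (F i).IsHomogeneous d) (c : L) (x : Fin (ν + 1) → L) :
    step F (c • x) = c ^ d • step F x := by
  funext i
  exact Pool.Agent.Helper36.aeval_smul_homogeneous (hF i) c x

theorem iter_smulK {d : ℕ} (hF : ∀ i, (F i).IsHomogeneous d) (c : L) (x : Fin (ν + 1) → L)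
    (n : ℕ) : iter F (c • x) n = c ^ d ^ n • iter F x n := by
  induction n with
  | zero => simp [iter_zero]
  | succ n ih => rw [iter_succ, ih, step_smulK hF, iter_succ, ← pow_mul, ← pow_succ]

/-- The normalised iterates form a semigroup. -/
theorem nit_add {d : ℕ} (hF : ∀ i, (F i).IsHomogeneous d) {u : Fin (ν + 1) → L} {m n : ℕ}
    (hn : iter F u n p ≠ 0) : nit F p u (m + n) = nit F p (nit F p u n) m := by
  have h1 : iter F u n = iter F u n p • nit F p u n := by
    funext a
    simp only [nit, Pi.smul_apply, smul_eq_mul]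
    field_simp
  have h2 : iter F u (m + n) = (iter F u n p) ^ d ^ m • iter F (nit F p u n) m := by
    rw [iter_add]
    conv_lhs => rw [h1]
    rw [iter_smulK hF]
  funext a
  have h3 : (iter F u n p) ^ d ^ m ≠ 0 := pow_ne_zero _ hn
  simp only [nit] at h2 ⊢
  rw [h2]
  simp only [Pi.smul_apply, smul_eq_mul]
  rw [mul_div_mul_left _ _ h3]

section

variable [IsAlgClosed k] {d : ℕ} {f : Fin (ν + 1) → MvPolynomial (Fin (ν + 1)) k} {N : ℕ} {γ : k}

theorem per_iter (hf : IsEndo d f) (hz : z p = 1) (hper : iter f z N = γ • z) (s : ℕ) :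
    ∃ c : k, c ≠ 0 ∧ iter f z (N * s) = c • z := by
  have hz0 : z ≠ 0 := by
    intro h
    rw [h] at hz
    exact zero_ne_one hz
  have h1 : ∃ c : k, iter f z (N * s) = c • z := by
    induction s with
    | zero => exact ⟨1, by rw [mul_zero, iter_zero, one_smul]⟩
    | succ s ih =>
      obtain ⟨c, hc⟩ := ih
      refine ⟨c ^ d ^ N * γ, ?_⟩
      rw [Nat.mul_succ, Nat.add_comm (N * s) N, iter_add, hc,
        Pool.Agent.Helper38.TQ.iter_smul hf, hper, smul_smul]
  obtain ⟨c, hc⟩ := h1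
  refine ⟨c, ?_, hc⟩
  rintro rfl
  rw [zero_smul] at hc
  exact Pool.Agent.Helper38.TQ.iter_ne_zero hf hz0 _ hc

theorem val_p (hf : GoodRed d B F f) (hz : z p = 1) (hper : iter f z N = γ • z)
    {u : Fin (ν + 1) → L} (hu : ∀ a, B.val (u a - algebraMap k L (z a)) < 1) (s : ℕ) :
    B.val (iter F u (N * s) p) = 1 := by
  obtain ⟨c, hc, h1⟩ := per_iter hf.endo hz hper s
  have h2 := red_iter hf.red hu (N * s) p
  rw [h1, Pi.smul_apply, hz, smul_eq_mul, mul_one] at h2
  have h3 := Valuation.map_eq_of_sub_lt B.val (x := algebraMap k L c)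
    (y := iter F u (N * s) p) (by rw [B.triv c hc]; exact h2)
  rw [h3, B.triv c hc]

theorem iter_p_ne (hf : GoodRed d B F f) (hz : z p = 1) (hper : iter f z N = γ • z)
    {u : Fin (ν + 1) → L} (hu : ∀ a, B.val (u a - algebraMap k L (z a)) < 1) (s : ℕ) :
    iter F u (N * s) p ≠ 0 := by
  intro h
  have := val_p hf hz hper hu s
  rw [h, map_zero] at this
  exact zero_ne_one this

theorem near_nit (hf : GoodRed d B F f) (hz : z p = 1) (hper : iter f z N = γ • z)
    {u : Fin (ν + 1) → L} (hu : ∀ a, B.val (u a - algebraMap k L (z a)) < 1) (s : ℕ) :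
    Near B z p (nit F p u (N * s)) := by
  have hne := iter_p_ne hf hz hper hu s
  have hv := val_p hf hz hper hu s
  refine ⟨div_self hne, fun a => ?_⟩
  obtain ⟨c, hc, h1⟩ := per_iter hf.endo hz hper s
  have h2 := red_iter hf.red hu (N * s) p
  have h3 := red_iter hf.red hu (N * s) a
  rw [h1, Pi.smul_apply, hz, smul_eq_mul, mul_one] at h2
  rw [h1, Pi.smul_apply, smul_eq_mul, map_mul] at h3
  have e : nit F p u (N * s) a - algebraMap k L (z a) =
      ((iter F u (N * s) a - algebraMap k L c * algebraMap k L (z a)) -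
        algebraMap k L (z a) * (iter F u (N * s) p - algebraMap k L c)) /
        iter F u (N * s) p := by
    rw [nit]
    field_simp
    ring
  rw [e, map_div₀, hv, div_one]
  refine B.val.map_sub_lt h3 ?_
  rw [map_mul, mul_comm]
  exact mul_lt_one_of_lt_of_le h2 (B.val_algebraMap_le _)

theorem lip_nit (hf : GoodRed d B F f) (hz : z p = 1) (hper : iter f z N = γ • z)
    {u u' : Fin (ν + 1) → L} (hu : Near B z p u) (hu' : Near B z p u')
    {ε : WithZero (Multiplicative ℤ)} (hd : ∀ a, B.val (u a - u' a) ≤ ε) (s : ℕ)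
    (a : Fin (ν + 1)) :
    B.val (nit F p u (N * s) a - nit F p u' (N * s) a) ≤ ε := by
  have hv := val_p hf hz hper hu.2 s
  have hv' := val_p hf hz hper hu'.2 s
  have hne := iter_p_ne hf hz hper hu.2 s
  have hne' := iter_p_ne hf hz hper hu'.2 s
  obtain ⟨h1, h2, h3⟩ := lip_iter (v := B.val) (F := F) (fun i m => (hf.red i).integral m)
    hu.int hu'.int hd (N * s)
  have e : nit F p u (N * s) a - nit F p u' (N * s) a =
      ((iter F u (N * s) a - iter F u' (N * s) a) * iter F u' (N * s) p -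
        iter F u' (N * s) a * (iter F u (N * s) p - iter F u' (N * s) p)) /
        (iter F u (N * s) p * iter F u' (N * s) p) := by
    rw [nit, nit]
    field_simp
    ring
  rw [e, map_div₀, map_mul B.val (iter F u (N * s) p), hv, hv', mul_one, div_one]
  refine (B.val.map_sub _ _).trans (max_le ?_ ?_)
  · rw [map_mul]
    exact (mul_le_mul' (h3 a) (h2 p)).trans_eq (mul_one _)
  · rw [map_mul]
    exact (mul_le_mul' (h2 a) (h3 p)).trans_eq (one_mul _)

theorem nit_near_add (hF : ∀ i, (F i).IsHomogeneous d) (hf : GoodRed d B F f) (hz : z p = 1)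
    (hper : iter f z N = γ • z) {u : Fin (ν + 1) → L}
    (hu : ∀ a, B.val (u a - algebraMap k L (z a)) < 1) (m n : ℕ) :
    nit F p u (N * (m + n)) = nit F p (nit F p u (N * n)) (N * m) := by
  rw [mul_add]
  exact nit_add hF (iter_p_ne hf hz hper hu n)

end

end Pool.Agent.Helper21.TN
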