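import Pool.Agent.Helper38.TQK.Good
import Pool.Agent.Helper21.TN.Newton

/-!
# Points of a smooth curve in a residue disc: the coordinates have iterated divided differences
-/

set_option autoImplicit false

namespace Pool.Agent.Helper21.TN

open MvPolynomial
open Pool.Agent.Helper16 (Place)
open Pool.Agent.Helper30.TKN

/-- Induction for integral polynomials. -/
theorem int_induction {L : Type} [Field L] {n : ℕ} (v : Valuation L (WithZero (Multiplicative ℤ)))
    {M : MvPolynomial (Fin n) L → Prop} (hC : ∀ a, v a ≤ 1 → M (C a))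
    (hadd : ∀ p q, M p → M q → M (p + q))
    (hX : ∀ p i, (∀ m, v (p.coeff m) ≤ 1) → M p → M (p * X i)) (P : MvPolynomial (Fin n) L)
    (hP : ∀ m, v (P.coeff m) ≤ 1) : M P := by
  classical
  have key : ∀ Q : MvPolynomial (Fin n) v.integer, M (map v.integer.subtype Q) := by
    intro Q
    induction Q using MvPolynomial.induction_on with
    | C a => rw [map_C]; exact hC _ a.2
    | add p q hp hq => rw [map_add]; exact hadd _ _ hp hq
    | mul_X p i hp =>
      rw [map_mul, map_X]
      exact hX _ i (fun m => by rw [coeff_map]; exact (p.coeff m).2) hp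
  have h1 : map v.integer.subtype
      (∑ m ∈ P.support, monomial m (⟨P.coeff m, hP m⟩ : v.integer)) = P := by
    rw [map_sum]
    conv_rhs => rw [P.as_sum]
    refine Finset.sum_congr rfl fun m _ => ?_
    rw [map_monomial]
    rfl
  rw [← h1]
  exact key _

variable {k L : Type} [Field k] [Field L] [Algebra k L]

section

variable {B : Place k L} {n : ℕ} {S : Type}

/-- The difference of the values of an integral polynomial at two close points. -/
theorem exists_dq {t : S → L} {M : ℕ} {c : Fin n → S → L} (hc : ∀ i, LL B.val t M (c i))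
    {z : Fin n → L} (hz : ∀ i, B.val (z i) ≤ 1) (hcz : ∀ i x, B.val (c i x - z i) < 1) (y : S)
    (P : MvPolynomial (Fin n) L) (hP : ∀ m, B.val (P.coeff m) ≤ 1) :
    ∃ H : Fin n → S → L, (∀ i, LL B.val t M (H i)) ∧
      (∀ x, eval (fun i => c i x) P - eval (fun i => c i y) P = ∑ i, H i x * (c i x - c i y)) ∧
      (∀ i x, B.val (H i x - eval z (pderiv i P)) < 1) ∧ B.val (eval z P) ≤ 1 ∧
      B.val (eval (fun i => c i y) P - eval z P) < 1 := by
  classical
  refine int_induction B.val (M := fun P => ∃ H : Fin n → S → L, (∀ i, LL B.val t M (H i)) ∧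
      (∀ x, eval (fun i => c i x) P - eval (fun i => c i y) P = ∑ i, H i x * (c i x - c i y)) ∧
      (∀ i x, B.val (H i x - eval z (pderiv i P)) < 1) ∧ B.val (eval z P) ≤ 1 ∧
      B.val (eval (fun i => c i y) P - eval z P) < 1) ?_ ?_ ?_ P hP
  · intro a ha
    refine ⟨fun _ _ => 0, fun i => LL.const M (by simp), fun x => by simp, fun i x => ?_, ?_, ?_⟩
    · rw [pderiv_C, map_zero, sub_zero, map_zero]
      exact zero_lt_one
    · rwa [eval_C]
    · rw [eval_C, eval_C, sub_self, map_zero]
      exact zero_lt_one
  · rintro p q ⟨H₁, h1, h2, h3, h4, h5⟩ ⟨H₂, g1, g2, g3, g4, g5⟩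
    refine ⟨fun i x => H₁ i x + H₂ i x, fun i => (h1 i).add (g1 i), fun x => ?_, fun i x => ?_,
      ?_, ?_⟩
    · simp only [map_add, add_mul, Finset.sum_add_distrib]
      rw [← h2 x, ← g2 x]
      ring
    · have e : H₁ i x + H₂ i x - eval z (pderiv i (p + q)) =
          (H₁ i x - eval z (pderiv i p)) + (H₂ i x - eval z (pderiv i q)) := by
        rw [map_add, map_add]; ring
      rw [e]
      exact B.val.map_add_lt (h3 i x) (g3 i x)
    · rw [map_add]
      exact (B.val.map_add _ _).trans (max_le h4 g4)
    · have e : eval (fun i => c i y) (p + q) - eval z (p + q) =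
          (eval (fun i => c i y) p - eval z p) + (eval (fun i => c i y) q - eval z q) := by
        rw [map_add, map_add]; ring
      rw [e]
      exact B.val.map_add_lt h5 g5
  · rintro p l hp ⟨H, h1, h2, h3, h4, h5⟩
    have hcl : ∀ x, B.val (c l x) ≤ 1 := fun x => (hc l).int x
    have hpy : B.val (eval (fun i => c i y) p) ≤ 1 := by
      have e : eval (fun i => c i y) p = (eval (fun i => c i y) p - eval z p) + eval z p := by
        ring
      rw [e]
      exact (B.val.map_add _ _).trans (max_le h5.le h4)
    refine ⟨fun i x => H i x * c l x + (if i = l then eval (fun i => c i y) p else 0),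
      fun i => ((h1 i).mul (hc l)).add (LL.const M ?_), fun x => ?_, fun i x => ?_, ?_, ?_⟩
    · split_ifs
      · exact hpy
      · simp
    · simp only [map_mul, eval_X, add_mul, Finset.sum_add_distrib, ite_mul, zero_mul,
        Finset.sum_ite_eq', Finset.mem_univ, if_true]
      have e : ∑ i, H i x * c l x * (c i x - c i y) =
          (∑ i, H i x * (c i x - c i y)) * c l x := by
        rw [Finset.sum_mul]
        exact Finset.sum_congr rfl fun i _ => by ring
      rw [e, ← h2 x]
      ring
    · have e : H i x * c l x + (if i = l then eval (fun i => c i y) p else 0) -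
          eval z (pderiv i (p * X l)) = (H i x - eval z (pderiv i p)) * c l x +
            eval z (pderiv i p) * (c l x - z l) +
            (if i = l then eval (fun i => c i y) p - eval z p else 0) := by
        rw [Derivation.leibniz, pderiv_X]
        rcases eq_or_ne i l with h | h
        · subst h
          rw [if_pos rfl, if_pos rfl, Pi.single_eq_same]
          simp only [smul_eq_mul, map_add, map_mul, eval_X, mul_one]
          ring
        · rw [if_neg h, if_neg h, Pi.single_eq_of_ne (Ne.symm h)]
          simp only [smul_eq_mul, map_add, map_mul, eval_X, map_zero, mul_zero]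
          ring
      rw [e]
      have hd : B.val (eval z (pderiv i p)) ≤ 1 := by
        have e : eval z (pderiv i p) = H i x - (H i x - eval z (pderiv i p)) := by ring
        rw [e]
        exact (B.val.map_sub _ _).trans (max_le ((h1 i).int x) (h3 i x).le)
      refine B.val.map_add_lt (B.val.map_add_lt ?_ ?_) ?_
      · rw [map_mul]
        exact mul_lt_one_of_lt_of_le (h3 i x) (hcl x)
      · rw [map_mul, mul_comm]
        exact mul_lt_one_of_lt_of_le (hcz l x) hd
      · split_ifs
        · exact h5
        · rw [map_zero]; exact zero_lt_one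
    · rw [map_mul, map_mul, eval_X]
      exact mul_le_one' h4 (hz l)
    · have e : eval (fun i => c i y) (p * X l) - eval z (p * X l) =
          (eval (fun i => c i y) p - eval z p) * c l y + eval z p * (c l y - z l) := by
        rw [map_mul, map_mul, eval_X, eval_X]; ring
      rw [e]
      refine B.val.map_add_lt ?_ ?_
      · rw [map_mul]
        exact mul_lt_one_of_lt_of_le h5 (hcl y)
      · rw [map_mul, mul_comm]
        exact mul_lt_one_of_lt_of_le (hcz l y) h4

end

section

variable {ν : ℕ}

/-- The points of the affine chart `x_p = 1`, in the residue disc of `z`, on the curve with the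
equations `h`. -/
def Pts (B : Place k L) (z : Fin (ν + 1) → k) (p t : Fin (ν + 1))
    (h : {i : Fin (ν + 1) // i ≠ p ∧ i ≠ t} → MvPolynomial (Fin (ν + 1)) L) : Type :=
  {u : Fin (ν + 1) → L // u p = 1 ∧ (∀ a, B.val (u a - algebraMap k L (z a)) < 1) ∧
    ∀ j, eval u (h j) = 0}

variable {B : Place k L} {z : Fin (ν + 1) → k} {p t : Fin (ν + 1)}
  {h : {i : Fin (ν + 1) // i ≠ p ∧ i ≠ t} → MvPolynomial (Fin (ν + 1)) L}

/-- The coordinates have iterated divided differences with respect to the coordinate `t`, if the
curve is smooth at `z`, with parameter `t`. -/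
theorem coord_LL {r : {i : Fin (ν + 1) // i ≠ p ∧ i ≠ t} → MvPolynomial (Fin (ν + 1)) k}
    (hpt : p ≠ t) (hr : ∀ j, RedP B (h j) (r j))
    (hdet : (Matrix.of fun j i : {i : Fin (ν + 1) // i ≠ p ∧ i ≠ t} =>
      eval z (pderiv i.1 (r j))).det ≠ 0) (M : ℕ) (i : Fin (ν + 1)) :
    LL B.val (fun u : Pts B z p t h => u.1 t) M (fun u : Pts B z p t h => u.1 i) := by
  classical
  have hz1 : ∀ i, B.val (algebraMap k L (z i)) ≤ 1 := fun i => by
    rcases eq_or_ne (z i) 0 with h0 | h0
    · rw [h0]; simp
    · exact (B.triv _ h0).le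
  have hint : ∀ (u : Pts B z p t h) i, B.val (u.1 i) ≤ 1 := fun u i => by
    have h1 : u.1 i = (u.1 i - algebraMap k L (z i)) + algebraMap k L (z i) := by ring
    rw [h1]
    exact (B.val.map_add _ _).trans (max_le (u.2.2.1 i).le (hz1 i))
  induction M generalizing i with
  | zero => exact fun u => hint u i
  | succ M ih =>
    refine ⟨fun u => hint u i, fun y => ?_⟩
    have hP : ∀ j m, B.val ((h j).coeff m) ≤ 1 := fun j m => (hr j).integral m
    choose H h1 h2 h3 h4 h5 using fun j => exists_dq (c := fun i (u : Pts B z p t h) => u.1 i) ih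
      (z := fun i => algebraMap k L (z i)) hz1 (fun i x => x.2.2.1 i) y (h j) (hP j)
    -- the matrix
    set A : Pts B z p t h → Matrix {i : Fin (ν + 1) // i ≠ p ∧ i ≠ t}
      {i : Fin (ν + 1) // i ≠ p ∧ i ≠ t} L := fun x => Matrix.of fun j i => H j i.1 x with hA
    have hAL : ∀ i j, LL B.val (fun u : Pts B z p t h => u.1 t) M (fun x => A x i j) :=
      fun i j => h1 i j.1
    -- the determinant is a unit
    have hderiv : ∀ j (i : Fin (ν + 1)), B.val (eval (fun i => algebraMap k L (z i))
        (pderiv i (h j)) - algebraMap k L (eval z (pderiv i (r j)))) < 1 := by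
      intro j i
      exact ((hr j).pderiv i).eval (u := fun i => algebraMap k L (z i)) (z := z)
        (fun a => by rw [sub_self, map_zero]; exact zero_lt_one)
    have hdetA : ∀ x, B.val ((A x).det) = 1 := by
      intro x
      have e1 : B.val ((A x).det - (Matrix.of fun j i : {i : Fin (ν + 1) // i ≠ p ∧ i ≠ t} =>
          algebraMap k L (eval z (pderiv i.1 (r j)))).det) < 1 := by
        have key : ∀ (ι : Type) [Fintype ι] [DecidableEq ι] (A₁ A₂ : Matrix ι ι L),
            (∀ i j, B.val (A₁ i j) ≤ 1) → (∀ i j, B.val (A₂ i j) ≤ 1) →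
            (∀ i j, B.val (A₁ i j - A₂ i j) < 1) → B.val (A₁.det - A₂.det) < 1 := by
          intro ι _ _ A₁ A₂ a1 a2 a3
          rw [Matrix.det_apply', Matrix.det_apply', ← Finset.sum_sub_distrib]
          refine B.val.map_sum_lt one_ne_zero fun σ _ => ?_
          rw [← mul_sub, map_mul]
          have hprod : ∀ s : Finset ι, B.val (∏ i ∈ s, A₁ (σ i) i - ∏ i ∈ s, A₂ (σ i) i) < 1 ∧
              B.val (∏ i ∈ s, A₁ (σ i) i) ≤ 1 := by
            intro s
            induction s using Finset.induction_on with
            | empty => simp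
            | insert a s ha ih =>
              rw [Finset.prod_insert ha, Finset.prod_insert ha]
              refine ⟨?_, ?_⟩
              · have e : A₁ (σ a) a * ∏ i ∈ s, A₁ (σ i) i - A₂ (σ a) a * ∏ i ∈ s, A₂ (σ i) i =
                    (A₁ (σ a) a - A₂ (σ a) a) * ∏ i ∈ s, A₁ (σ i) i +
                    A₂ (σ a) a * (∏ i ∈ s, A₁ (σ i) i - ∏ i ∈ s, A₂ (σ i) i) := by ring
                rw [e]
                refine B.val.map_add_lt ?_ ?_
                · rw [map_mul]
                  exact mul_lt_one_of_lt_of_le (a3 _ _) ih.2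
                · rw [map_mul, mul_comm]
                  exact mul_lt_one_of_lt_of_le ih.1 (a2 _ _)
              · rw [map_mul]
                exact mul_le_one' (a1 _ _) ih.2
          have hs : B.val (((Equiv.Perm.sign σ : ℤ) : L)) ≤ 1 := by
            rcases Int.units_eq_one_or (Equiv.Perm.sign σ) with h2 | h2 <;> rw [h2] <;> simp
          rw [mul_comm]
          exact mul_lt_one_of_lt_of_le (hprod _).1 hs
        refine key _ _ _ (fun i j => (h1 i j.1).int x) (fun i j => ?_) (fun i j => ?_)
        · rw [Matrix.of_apply]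
          rcases eq_or_ne (eval z (pderiv j.1 (r i))) 0 with h0 | h0
          · rw [h0]; simp
          · exact (B.triv _ h0).le
        · change B.val (H i j.1 x - algebraMap k L (eval z (pderiv j.1 (r i)))) < 1
          have e : H i j.1 x - algebraMap k L (eval z (pderiv j.1 (r i))) =
              (H i j.1 x - eval (fun i => algebraMap k L (z i)) (pderiv j.1 (h i))) +
              (eval (fun i => algebraMap k L (z i)) (pderiv j.1 (h i)) -
                algebraMap k L (eval z (pderiv j.1 (r i)))) := by ring
          rw [e]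
          exact B.val.map_add_lt (h3 i j.1 x) (hderiv i j.1)
      have e2 : (Matrix.of fun j i : {i : Fin (ν + 1) // i ≠ p ∧ i ≠ t} =>
          algebraMap k L (eval z (pderiv i.1 (r j)))).det = algebraMap k L
            (Matrix.of fun j i : {i : Fin (ν + 1) // i ≠ p ∧ i ≠ t} =>
              eval z (pderiv i.1 (r j))).det := by
        rw [RingHom.map_det]
        congr 1
      rw [e2] at e1
      have e3 := B.triv _ hdet
      have e4 := Valuation.map_eq_of_sub_lt B.val (x := algebraMap k L
            (Matrix.of fun j i : {i : Fin (ν + 1) // i ≠ p ∧ i ≠ t} =>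
              eval z (pderiv i.1 (r j))).det) (y := (A x).det) (by rw [e3]; exact e1)
      rw [e4, e3]
    have hne : ∀ x, (A x).det ≠ 0 := fun x h0 => by
      have := hdetA x
      rw [h0, map_zero] at this
      exact zero_ne_one this
    -- the linear system
    have hsys : ∀ x, (A x).mulVec (fun i => x.1 i.1 - y.1 i.1) =
        fun j => -(H j t x * (x.1 t - y.1 t)) := by
      intro x
      funext j
      have e1 := h2 j x
      rw [show (fun i => x.1 i) = x.1 from rfl, show (fun i => y.1 i) = y.1 from rfl,
        x.2.2.2 j, y.2.2.2 j, sub_zero] at e1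
      have e2 : ∑ i, H j i x * (x.1 i - y.1 i) = H j p x * (x.1 p - y.1 p) +
          (H j t x * (x.1 t - y.1 t) +
            ∑ i : {i : Fin (ν + 1) // i ≠ p ∧ i ≠ t}, H j i.1 x * (x.1 i.1 - y.1 i.1)) := by
        rw [← Finset.add_sum_erase _ _ (Finset.mem_univ p),
          ← Finset.add_sum_erase (Finset.univ.erase p) _
            (Finset.mem_erase.2 ⟨hpt.symm, Finset.mem_univ t⟩)]
        congr 2
        refine (Finset.sum_subtype _ (fun i => ?_) _)
        simp only [Finset.mem_erase, Finset.mem_univ, and_true]
        exact And.comm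
      rw [e2, x.2.1, y.2.1, sub_self, mul_zero, zero_add] at e1
      change ∑ i : {i : Fin (ν + 1) // i ≠ p ∧ i ≠ t}, H j i.1 x * (x.1 i.1 - y.1 i.1) =
        -(H j t x * (x.1 t - y.1 t))
      linear_combination -e1
    by_cases hip : i = p
    · subst hip
      refine ⟨fun _ => 0, LL.const M (by simp), fun x => ?_⟩
      have a1 : x.1 i = 1 := x.2.1
      have a2 : y.1 i = 1 := y.2.1
      change x.1 i - y.1 i = (x.1 t - y.1 t) * 0
      rw [a1, a2]
      ring
    by_cases hit : i = t
    · subst hit
      exact ⟨fun _ => 1, LL.const M (by simp), fun x => (mul_one _).symm⟩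
    refine ⟨fun x => (∑ j, (A x).adjugate ⟨i, hip, hit⟩ j * -(H j t x)) / (A x).det,
      LL.div (LL.sum _ fun j _ => LL.mul ?_ (h1 j t).neg) (LL.det hAL) hdetA, fun x => ?_⟩
    · have e : (fun x => (A x).adjugate ⟨i, hip, hit⟩ j) =
          fun x => ((A x).updateRow j (Pi.single ⟨i, hip, hit⟩ 1)).det := by
        funext x
        rw [Matrix.adjugate_apply]
      rw [e]
      refine LL.det fun a b => ?_
      by_cases haj : a = j
      · subst haj
        simp only [Matrix.updateRow_self]
        refine LL.const M ?_
        by_cases hb : b = ⟨i, hip, hit⟩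
        · subst hb; simp
        · rw [Pi.single_eq_of_ne hb]; simp
      · simp only [Matrix.updateRow_ne haj]
        exact hAL a b
    · have e1 := congrArg (fun w => (A x).adjugate.mulVec w) (hsys x)
      simp only [Matrix.mulVec_mulVec, Matrix.adjugate_mul, Matrix.smul_mulVec,
        Matrix.one_mulVec] at e1
      have e2 := congrFun e1 ⟨i, hip, hit⟩
      simp only [Pi.smul_apply, smul_eq_mul] at e2
      have e3 : (A x).adjugate.mulVec (fun j => -(H j t x * (x.1 t - y.1 t))) ⟨i, hip, hit⟩ =
          (x.1 t - y.1 t) * ∑ j, (A x).adjugate ⟨i, hip, hit⟩ j * -(H j t x) := by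
        rw [Finset.mul_sum]
        change ∑ j, (A x).adjugate ⟨i, hip, hit⟩ j * -(H j t x * (x.1 t - y.1 t)) = _
        exact Finset.sum_congr rfl fun j _ => by ring
      rw [e3] at e2
      have h6 := hne x
      rw [mul_div_assoc', eq_div_iff h6, ← e2]
      exact mul_comm _ _

end

end Pool.Agent.Helper21.TN
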