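import Pool.Agent.Helper21.TN.Nit

/-!
# Stability of the residue discs of a smooth curve
-/

set_option autoImplicit false

namespace Pool.Agent.Helper21.TN

open MvPolynomial
open Pool.Agent.Helper16 (Place)
open Pool.Agent.Helper30.TKN
open Pool.Agent.Helper36 (step iter iter_zero iter_succ iter_add)
open Pool.Agent.Helper38.TQ (IsEndo)

variable {ν : ℕ} {k L : Type} [Field k] [Field L] [Algebra k L]

theorem le_exp_neg_one {x : WithZero (Multiplicative ℤ)} (h : x < 1) :
    x ≤ WithZero.exp (-1 : ℤ) := by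
  rcases eq_or_ne x 0 with h0 | h0
  · rw [h0]; exact zero_le
  · have h1 : WithZero.log x < 0 := (WithZero.log_lt_iff_lt_exp h0).2 (by simpa using h)
    exact WithZero.le_exp_of_log_le (by omega)

/-- A sequence of vectors tends to zero. -/
def Tends (B : Place k L) {n : ℕ} (w : ℕ → Fin n → L) : Prop :=
  ∀ m : ℤ, ∃ J, ∀ j, J ≤ j → ∀ a, B.val (w j a) ≤ WithZero.exp (-m)

variable {B : Place k L}

theorem Tends.add {n : ℕ} {w w' : ℕ → Fin n → L} (h : Tends B w) (h' : Tends B w') :
    Tends B fun j a => w j a + w' j a := by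
  intro m
  obtain ⟨J, hJ⟩ := h m
  obtain ⟨J', hJ'⟩ := h' m
  exact ⟨max J J', fun j hj a => (B.val.map_add _ _).trans
    (max_le (hJ j ((le_max_left _ _).trans hj) a) (hJ' j ((le_max_right _ _).trans hj) a))⟩

theorem Tends.neg {n : ℕ} {w : ℕ → Fin n → L} (h : Tends B w) :
    Tends B fun j a => -w j a := by
  intro m
  obtain ⟨J, hJ⟩ := h m
  exact ⟨J, fun j hj a => by rw [Valuation.map_neg]; exact hJ j hj a⟩

theorem Tends.comp {n : ℕ} {w : ℕ → Fin n → L} (h : Tends B w) {τ : ℕ → ℕ}
    (hτ : ∀ J, ∃ J', ∀ j, J' ≤ j → J ≤ τ j) : Tends B fun j => w (τ j) := by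
  intro m
  obtain ⟨J, hJ⟩ := h m
  obtain ⟨J', hJ'⟩ := hτ J
  exact ⟨J', fun j hj a => hJ _ (hJ' j hj) a⟩

/-- Telescoping along a residue class. -/
theorem Tends.class {n : ℕ} {P : ℕ → Fin n → L} {q : ℕ}
    (h : Tends B fun j a => P (j + q) a - P j a) (i e : ℕ) :
    Tends B fun s a => P (i + q * e + q * s) a - P (i + q * s) a := by
  intro m
  obtain ⟨J, hJ⟩ := h m
  have key : ∀ e, ∀ j, J ≤ j → ∀ a, B.val (P (j + q * e) a - P j a) ≤ WithZero.exp (-m) := by
    intro e
    induction e with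
    | zero => intro j hj a; rw [mul_zero, add_zero, sub_self, map_zero]; exact zero_le
    | succ e ih =>
      intro j hj a
      have e1 : P (j + q * (e + 1)) a - P j a =
          (P (j + q * e + q) a - P (j + q * e) a) + (P (j + q * e) a - P j a) := by
        rw [show j + q * (e + 1) = j + q * e + q by ring]
        ring
      rw [e1]
      exact (B.val.map_add _ _).trans (max_le (hJ _ (by omega) a) (ih j hj a))
  rcases Nat.eq_zero_or_pos q with hq | hq
  · subst hq
    refine ⟨0, fun j _ a => ?_⟩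
    simp
  · refine ⟨J, fun s hs a => ?_⟩
    have h1 := key e (i + q * s) (by nlinarith) a
    rwa [show i + q * s + q * e = i + q * e + q * s by ring] at h1

section

variable [IsAlgClosed k] {z : Fin (ν + 1) → k} {p : Fin (ν + 1)}
  {F : Fin (ν + 1) → MvPolynomial (Fin (ν + 1)) L} {d : ℕ}
  {f : Fin (ν + 1) → MvPolynomial (Fin (ν + 1)) k} {N : ℕ} {γ : k} {S : Type}
  {pt : S → Fin (ν + 1) → L} {t : S → L}

/-- The normalised iterates have iterated divided differences. -/
theorem nit_LL (hf : GoodRed d B F f) (hz : z p = 1) (hper : iter f z N = γ • z)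
    (hnear : ∀ u, Near B z p (pt u)) (hLL : ∀ M a, LL B.val t M fun u => pt u a)
    (s M : ℕ) (a : Fin (ν + 1)) : LL B.val t M fun u => nit F p (pt u) (N * s) a := by
  have h1 : ∀ n, ∀ a, LL B.val t M fun u => iter F (pt u) n a := by
    intro n
    induction n with
    | zero => exact fun a => hLL M a
    | succ n ih =>
      intro a
      have h2 := LL.eval ih (P := F a) (fun m => (hf.red a).integral m)
      have h3 : (fun u => eval (fun i => iter F (pt u) n i) (F a)) =
          fun u => iter F (pt u) (n + 1) a := by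
        funext u
        rw [iter_succ, step_eval]
      rwa [h3] at h2
  exact LL.div (h1 _ a) (h1 _ p) fun u => val_p hf hz hper (hnear u).2 s

/-- Every point of the curve in the residue disc has the same future as the returns. -/
theorem stable (hF : ∀ i, (F i).IsHomogeneous d) (hf : GoodRed d B F f) (hz : z p = 1)
    (hper : iter f z N = γ • z)
    (hnear : ∀ u, Near B z p (pt u)) (hLL : ∀ M a, LL B.val t M fun u => pt u a)
    (htt : ∀ u w : S, B.val (t u - t w) < 1)
    {x : Fin (ν + 1) → L} (hx : Near B z p x)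
    (hdist : ∀ i j, i ≠ j → nit F p x (N * i) ≠ nit F p x (N * j)) {q : ℕ}
    {T : Set ℕ} (hT : T.Infinite) (hTq : ∀ i ∈ T, ∀ j ∈ T, i ≡ j [MOD q])
    (hTS : ∀ j ∈ T, ∃ s : S, pt s = nit F p x (N * j))
    (hconv : Tends B fun j a => nit F p x (N * (j + q)) a - nit F p x (N * j) a)
    {j₀ : ℕ} (hj₀ : j₀ ∈ T) (u : S) :
    Tends B fun s a => nit F p (pt u) (N * (q * s)) a - nit F p x (N * (j₀ + q * s)) a := by
  classical
  intro m
  obtain ⟨R, hRT, hR⟩ := hT.exists_subset_card_eq m.toNat
  -- the nodes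
  set M := m.toNat with hM
  have eR : Nonempty (Fin M ≃ R) := ⟨(finCongr hR.symm).trans R.equivFin.symm⟩
  obtain ⟨eR⟩ := eR
  choose yS hyS using fun i : Fin M => hTS (eR i) (hRT (eR i).2)
  -- the parameters of different nodes are different
  have hne : ∀ i j, i ≠ j → t (yS i) - t (yS j) ≠ 0 := by
    intro i j hij h0
    have h1 : (eR i : ℕ) ≠ eR j := fun h => hij (eR.injective (Subtype.ext h))
    refine hdist _ _ h1 ?_
    rw [← hyS i, ← hyS j]
    funext a
    obtain ⟨g', -, hg'⟩ := (hLL 1 a).2 (yS j)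
    have := hg' (yS i)
    rw [h0, zero_mul] at this
    exact sub_eq_zero.1 this
  obtain ⟨E, hE⟩ : ∃ E : ℕ, ∀ i j, i ≠ j → WithZero.exp (-(E : ℤ)) ≤
      B.val (t (yS i) - t (yS j)) := by
    refine ⟨∑ i, ∑ j, (-WithZero.log (B.val (t (yS i) - t (yS j)))).toNat, fun i j hij => ?_⟩
    have h1 : B.val (t (yS i) - t (yS j)) ≠ 0 := by simpa using hne i j hij
    rw [← WithZero.exp_log h1, WithZero.exp_le_exp]
    have h2 : (-WithZero.log (B.val (t (yS i) - t (yS j)))).toNat ≤
        ∑ i, ∑ j, (-WithZero.log (B.val (t (yS i) - t (yS j)))).toNat :=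
      (Finset.single_le_sum (f := fun j => (-WithZero.log (B.val (t (yS i) - t (yS j)))).toNat)
        (fun _ _ => Nat.zero_le _) (Finset.mem_univ j)).trans
      (Finset.single_le_sum (f := fun i => ∑ j, (-WithZero.log (B.val
        (t (yS i) - t (yS j)))).toNat) (fun _ _ => Nat.zero_le _) (Finset.mem_univ i))
    have h3 := Int.self_le_toNat (-WithZero.log (B.val (t (yS i) - t (yS j))))
    omega
  -- the values at the nodes are small
  have hsmall : ∀ i : Fin M, Tends B fun s a =>
      nit F p (pt (yS i)) (N * (q * s)) a - nit F p x (N * (j₀ + q * s)) a := by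
    intro i
    have h1 : ∀ s, nit F p (pt (yS i)) (N * (q * s)) = nit F p x (N * ((eR i : ℕ) + q * s)) := by
      intro s
      rw [hyS i, ← nit_near_add hF hf hz hper hx.2, Nat.add_comm (q * s)]
    have h2 := hTq _ (hRT (eR i).2) _ hj₀
    rcases le_total (eR i : ℕ) j₀ with hle | hle
    · obtain ⟨c, hc⟩ := (Nat.modEq_iff_dvd' hle).1 h2
      have h3 := (Tends.class (P := fun j => nit F p x (N * j)) hconv (eR i) c).neg
      have h4 : (eR i : ℕ) + q * c = j₀ := by omega
      rw [h4] at h3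
      intro m
      obtain ⟨J, hJ⟩ := h3 m
      refine ⟨J, fun s hs a => ?_⟩
      have h5 := hJ s hs a
      simp only [neg_sub] at h5
      change B.val (nit F p (pt (yS i)) (N * (q * s)) a - _) ≤ _
      rw [h1]
      exact h5
    · obtain ⟨c, hc⟩ := (Nat.modEq_iff_dvd' hle).1 h2.symm
      have h3 := Tends.class (P := fun j => nit F p x (N * j)) hconv j₀ c
      have h4 : j₀ + q * c = (eR i : ℕ) := by omega
      rw [h4] at h3
      intro m
      obtain ⟨J, hJ⟩ := h3 m
      refine ⟨J, fun s hs a => ?_⟩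
      have h5 := hJ s hs a
      change B.val (nit F p (pt (yS i)) (N * (q * s)) a - _) ≤ _
      rw [h1]
      exact h5
  choose J hJ using fun i => hsmall i (m + E * M)
  refine ⟨∑ i, J i, fun s hs a => ?_⟩
  have hJs : ∀ i, J i ≤ s := fun i =>
    (Finset.single_le_sum (f := J) (fun _ _ => Nat.zero_le _) (Finset.mem_univ i)).trans hs
  -- the interpolation
  have hP := near_nit hf hz hper hx.2 (j₀ + q * s)
  have h1 : LL B.val t M fun u => nit F p (pt u) (N * (q * s)) a -
      nit F p x (N * (j₀ + q * s)) a :=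
    (nit_LL hf hz hper hnear hLL (q * s) M a).sub (LL.const M (hP.int a))
  have h2 := h1.bound (y := yS) (u := u) (η := WithZero.exp (-(E : ℤ)))
    (ρ := WithZero.exp (-1 : ℤ)) (ε := WithZero.exp (-(m + E * M))) WithZero.exp_ne_zero
    (by rw [← WithZero.exp_zero, WithZero.exp_le_exp]; omega) hE
    (fun i => le_exp_neg_one (htt u (yS i)))
    (by rw [← WithZero.exp_zero, WithZero.exp_le_exp]; omega)
    (fun i => hJ i s (hJs i) a)
  refine h2.trans (max_le ?_ ?_)
  · rw [← WithZero.exp_neg, ← WithZero.exp_nsmul, ← WithZero.exp_add, WithZero.exp_le_exp]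
    simp only [nsmul_eq_mul]
    rw [neg_neg]
    linarith [mul_comm (E : ℤ) (M : ℤ)]
  · rw [← WithZero.exp_nsmul, WithZero.exp_le_exp]
    simp only [nsmul_eq_mul]
    have := Int.self_le_toNat m
    rw [hM]
    linarith

/-- If the disc contains a point `u` of the curve whose image is on the curve, then the orbit
converges. -/
theorem stable_conv (hF : ∀ i, (F i).IsHomogeneous d) (hf : GoodRed d B F f) (hz : z p = 1)
    (hper : iter f z N = γ • z)
    (hnear : ∀ u, Near B z p (pt u)) (hLL : ∀ M a, LL B.val t M fun u => pt u a)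
    (htt : ∀ u w : S, B.val (t u - t w) < 1)
    {x : Fin (ν + 1) → L} (hx : Near B z p x)
    (hdist : ∀ i j, i ≠ j → nit F p x (N * i) ≠ nit F p x (N * j)) {q : ℕ} (hq : 0 < q)
    {T : Set ℕ} (hT : T.Infinite) (hTq : ∀ i ∈ T, ∀ j ∈ T, i ≡ j [MOD q])
    (hTS : ∀ j ∈ T, ∃ s : S, pt s = nit F p x (N * j))
    (hconv : Tends B fun j a => nit F p x (N * (j + q)) a - nit F p x (N * j) a)
    (u w : S) (huw : pt w = nit F p (pt u) (N * 1)) :
    Tends B fun j a => nit F p x (N * (j + 1)) a - nit F p x (N * j) a := by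
  obtain ⟨j₀, hj₀⟩ := hT.nonempty
  have h1 := stable hF hf hz hper hnear hLL htt hx hdist hT hTq hTS hconv hj₀ u
  have h2 := stable hF hf hz hper hnear hLL htt hx hdist hT hTq hTS hconv hj₀ w
  intro m
  obtain ⟨J₁, h3⟩ := h1 m
  obtain ⟨J₂, h4⟩ := h2 m
  refine ⟨j₀ + q * (J₁ + J₂), fun j hj => ?_⟩
  -- the time
  obtain ⟨s, r, hs, hj'⟩ : ∃ s r, J₁ + J₂ ≤ s ∧ j = r + (j₀ + q * s) := by
    refine ⟨(j - j₀) / q, (j - j₀) % q, ?_, ?_⟩
    · rw [Nat.le_div_iff_mul_le hq]
      have : (J₁ + J₂) * q = q * (J₁ + J₂) := mul_comm _ _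
      omega
    · have := Nat.mod_add_div (j - j₀) q
      have h5 : j₀ ≤ j := le_trans (Nat.le_add_right _ _) hj
      omega
  subst hj'
  have h5 := h3 s (by omega)
  have h6 := h4 s (by omega)
  simp only at h5 h6
  have hN1 : Near B z p (nit F p x (N * (j₀ + q * s))) := near_nit hf hz hper hx.2 _
  have hU : Near B z p (nit F p (pt u) (N * (q * s))) := near_nit hf hz hper (hnear u).2 _
  -- one step further
  have h7 : ∀ a, B.val (nit F p (pt w) (N * (q * s)) a -
      nit F p x (N * (1 + (j₀ + q * s))) a) ≤ WithZero.exp (-m) := by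
    intro a
    rw [huw, nit_near_add hF hf hz hper hx.2 1 (j₀ + q * s),
      ← nit_near_add hF hf hz hper (hnear u).2 (q * s) 1, Nat.add_comm (q * s) 1,
      nit_near_add hF hf hz hper (hnear u).2 1 (q * s)]
    exact lip_nit hf hz hper hU hN1 h5 1 a
  have h8 : ∀ a, B.val (nit F p x (N * (1 + (j₀ + q * s))) a -
      nit F p x (N * (j₀ + q * s)) a) ≤ WithZero.exp (-m) := by
    intro a
    have e : nit F p x (N * (1 + (j₀ + q * s))) a - nit F p x (N * (j₀ + q * s)) a =
        (nit F p (pt w) (N * (q * s)) a - nit F p x (N * (j₀ + q * s)) a) -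
        (nit F p (pt w) (N * (q * s)) a - nit F p x (N * (1 + (j₀ + q * s))) a) := by ring
    rw [e]
    exact (B.val.map_sub _ _).trans (max_le (h6 a) (h7 a))
  intro a
  have hN2 : Near B z p (nit F p x (N * (1 + (j₀ + q * s)))) := near_nit hf hz hper hx.2 _
  have h9 := lip_nit hf hz hper hN2 hN1 h8 r a
  rw [← nit_near_add hF hf hz hper hx.2, ← nit_near_add hF hf hz hper hx.2,
    show r + (1 + (j₀ + q * s)) = r + (j₀ + q * s) + 1 by ring] at h9
  exact h9

end

end Pool.Agent.Helper21.TN
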